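import Mathlib
import Pool.Agent.H98.Code.Minor
import Pool.Agent.H98.Code.AA
import Pool.Agent.H35.LB.Main
import Pool.Agent.H17.TR.Graph

set_option autoImplicit false

/-!
A code whose deletion of `e` by `z` is the code of a tree and which splits every `z`-free word which is
`0` at `e`: the vertex `e` has exactly one neighbour (MP_a46c6f_co, Lemma B of note 6873 in code form).
-/

namespace Pool.Agent.H32.AA

open Pool.Agent.H98.Code Finset
open scoped Classical

section mat
variable {V : Type} [Fintype V]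

/-- `H` is a matrix of `L` -/
def IsMat (L : Submodule (ZMod 2) (V → K)) (H : V → V → ZMod 2) : Prop :=
  (∀ u v, H u v = H v u) ∧ ∀ u, u ∈ L ↔ ∀ v, (u v).2 = ∑ w, H v w * (u w).1

theorem adj_iff {L : Submodule (ZMod 2) (V → K)} {H : V → V → ZMod 2} (hH : IsMat L H) (v w : V) :
    (graph L).Adj v w ↔ v ≠ w ∧ H v w = 1 := by
  have key : ∀ v w, v ≠ w → ((∃ r ∈ L, (r v).1 = 1 ∧ (∀ i, i ≠ v → (r i).1 = 0) ∧ r w = z) ↔
      H w v = 1) := by
    intro v w hvw
    have hsum : ∀ r : V → K, (r v).1 = 1 → (∀ i, i ≠ v → (r i).1 = 0) →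
        ∀ x, ∑ i, H x i * (r i).1 = H x v := by
      intro r h1 h0 x
      rw [Finset.sum_eq_single v]
      · rw [h1, mul_one]
      · intro i _ hi
        rw [h0 i hi, mul_zero]
      · intro h; exact absurd (Finset.mem_univ v) h
    constructor
    · rintro ⟨r, hr, h1, h0, hw⟩
      have h2 := (hH.2 r).1 hr w
      rw [hsum r h1 h0, hw] at h2
      exact h2.symm
    · intro hw
      refine ⟨fun i => (if i = v then 1 else 0, H i v), ?_, ?_, ?_, ?_⟩
      · rw [hH.2]
        intro x
        rw [hsum _ (by simp) (fun i hi => by simp [hi])]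
      · simp
      · intro i hi; simp [hi]
      · simp [hvw.symm, hw, z]
  unfold graph
  rw [SimpleGraph.fromRel_adj]
  constructor
  · rintro ⟨hne, h | h⟩
    · exact ⟨hne, by rw [hH.1]; exact (key v w hne).1 h⟩
    · exact ⟨hne, (key w v hne.symm).1 h⟩
  · rintro ⟨hne, h⟩
    exact ⟨hne, Or.inr ((key w v hne.symm).2 h)⟩

end mat

section del
variable {V W : Type} [Fintype V] [Fintype W]

/-- splitting a sum at `e` -/
theorem sum_at (e : V) (ι : W → V) (hι : Function.Injective ι) (hr : ∀ v, v ∈ Set.range ι ↔ v ≠ e)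
    {M : Type} [AddCommMonoid M] (f : V → M) : ∑ v, f v = f e + ∑ x, f (ι x) := by
  rw [← Finset.add_sum_erase _ _ (Finset.mem_univ e)]
  congr 1
  have : (Finset.univ.erase e : Finset V) = Finset.univ.map ⟨ι, hι⟩ := by
    ext v
    simp only [Finset.mem_erase, Finset.mem_univ, and_true, Finset.mem_map, true_and,
      Function.Embedding.coeFn_mk]
    rw [← hr v]
    rfl
  rw [this, Finset.sum_map]
  rfl

theorem isMat_minor {L : Submodule (ZMod 2) (V → K)} {H : V → V → ZMod 2} (hH : IsMat L H) (e : V)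
    (ι : W → V) (hι : Function.Injective ι) (hr : ∀ v, v ∈ Set.range ι ↔ v ≠ e) :
    IsMat (Minor L ι (fun _ => z)) (fun x y => H (ι x) (ι y)) := by
  refine ⟨fun x y => hH.1 _ _, ?_⟩
  intro a
  constructor
  · rintro ⟨u, hu, hu0, rfl⟩ x
    have h0 : (u e).1 = 0 := by
      have := hu0 e (fun h => (hr e).1 h rfl)
      rwa [kf_z_right] at this
    rw [(hH.2 u).1 hu (ι x), sum_at e ι hι hr, h0, mul_zero, zero_add]
  · intro ha
    have hex : ∀ x, Function.extend ι (fun y => (a y).1) 0 (ι x) = (a x).1 := fun x =>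
      Function.Injective.extend_apply hι _ _ x
    have hee : Function.extend ι (fun y => (a y).1) 0 e = 0 := by
      rw [Function.extend_apply']
      · rfl
      · rintro ⟨x, hx⟩
        exact (hr e).1 ⟨x, hx⟩ rfl
    refine ⟨fun v => (Function.extend ι (fun y => (a y).1) 0 v,
      ∑ w, H v w * Function.extend ι (fun y => (a y).1) 0 w), ?_, ?_, ?_⟩
    · rw [hH.2]
      intro v
      rfl
    · intro v hv
      have hve : v = e := by
        by_contra h
        exact hv ((hr v).2 h)
      rw [kf_z_right, hve]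
      exact hee
    · funext x
      refine Prod.ext ?_ ?_
      · exact (hex x).symm
      · change (a x).2 = ∑ w, H (ι x) w * Function.extend ι (fun y => (a y).1) 0 w
        rw [ha x, sum_at e ι hι hr, hee, mul_zero, zero_add]
        exact Finset.sum_congr rfl fun y _ => by rw [hex]

variable {L : Submodule (ZMod 2) (V → K)} {H : V → V → ZMod 2}

theorem nb_eq (hH : IsMat L H) (e : V)
    (ι : W → V) (hι : Function.Injective ι) (hr : ∀ v, v ∈ Set.range ι ↔ v ≠ e) (s : W → ZMod 2)
    (x : W) (hx : s x = 0) :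
    Pool.Agent.H35.LB.nb (graph (Minor L ι (fun _ => z))) s x = ∑ y, H (ι x) (ι y) * s y := by
  unfold Pool.Agent.H35.LB.nb
  apply Finset.sum_congr rfl
  intro y _
  have h := adj_iff (isMat_minor hH e ι hι hr) x y
  by_cases hxy : x = y
  · subst hxy
    simp [hx]
  · rcases Pool.Agent.H35.LB.z2 (H (ι x) (ι y)) with h0 | h1
    · rw [if_neg, h0, zero_mul]
      rw [h]
      rintro ⟨_, h2⟩
      rw [h0] at h2
      exact absurd h2 (by decide)
    · rw [if_pos, h1, one_mul]
      rw [h]
      exact ⟨hxy, h1⟩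

theorem snd_eq (hH : IsMat L H) (e : V)
    (ι : W → V) (hι : Function.Injective ι) (hr : ∀ v, v ∈ Set.range ι ↔ v ≠ e) {c : V → K}
    (hc : c ∈ L) (he : (c e).1 = 0) (v : V) : (c v).2 = ∑ y, H v (ι y) * (c (ι y)).1 := by
  rw [(hH.2 c).1 hc v, sum_at e ι hι hr, he, mul_zero, zero_add]

theorem pointed_of (hH : IsMat L H) (e : V)
    (ι : W → V) (hι : Function.Injective ι) (hr : ∀ v, v ∈ Set.range ι ↔ v ≠ e) {u c d : V → K}
    (hu : ZFree u) (hue : u e = 0) (hc : c ∈ L) (hs : c + d = u) (g : V) (hg : c g = z)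
    (hdis : ∀ v, v ≠ g → c v = 0 ∨ d v = 0) (g' : Option W)
    (hg' : (g' = none ∧ g = e) ∨ ∃ x, g' = some x ∧ g = ι x) :
    Pool.Agent.H35.LB.Pointed (graph (Minor L ι (fun _ => z))) (fun x => H e (ι x))
      (fun x => (c (ι x)).1) g' := by
  have hce : g ≠ e → c e = 0 := by
    intro h
    rcases hdis e h.symm with h1 | h1
    · exact h1
    · have := congrFun hs e
      rw [Pi.add_apply, h1, add_zero, hue] at this
      exact this
  have hce1 : (c e).1 = 0 := by
    by_cases h : g = e
    · rw [← h, hg]; rfl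
    · rw [hce h]; rfl
  have hoff : ∀ v, v ≠ g → (c v).1 = 0 → (c v).2 = 0 := by
    intro v hv h1
    rcases hdis v hv with h2 | h2
    · rw [h2]; rfl
    · have h3 := congrFun hs v
      rw [Pi.add_apply, h2, add_zero] at h3
      have h4 := hu v
      rw [← h3, k_ne_z_iff] at h4
      exact h4 h1
  have hnb : ∀ x : W, (c (ι x)).1 = 0 →
      Pool.Agent.H35.LB.nb (graph (Minor L ι (fun _ => z))) (fun x => (c (ι x)).1) x
        = (c (ι x)).2 := by
    intro x hx
    rw [nb_eq hH e ι hι hr _ x hx, snd_eq hH e ι hι hr hc hce1]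
  have hen : Pool.Agent.H35.LB.en (fun x => H e (ι x)) (fun x => (c (ι x)).1) = (c e).2 := by
    rw [snd_eq hH e ι hι hr hc hce1]
    rfl
  rcases hg' with ⟨h1, h2⟩ | ⟨x, h1, h2⟩
  · subst h1
    refine ⟨?_, ?_⟩
    · intro x hx
      rw [hnb x hx]
      apply hoff _ _ hx
      rw [h2]
      exact (hr _).1 ⟨x, rfl⟩
    · rw [hen, ← h2, hg]
      rfl
  · subst h1
    have hcg : (c (ι x)).1 = 0 := by rw [← h2, hg]; rfl
    refine ⟨hcg, ?_, ?_, ?_⟩
    · rw [hnb x hcg, ← h2, hg]
      rfl
    · intro v hv hv0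
      rw [hnb v hv0]
      apply hoff _ _ hv0
      rw [h2]
      exact fun h => hv (hι h)
    · rw [hen]
      have : g ≠ e := by rw [h2]; exact (hr _).1 ⟨x, rfl⟩
      rw [hce this]
      rfl

/-- **Lemma B in code form**: if the code of `L` with `e` deleted by `z` is the code of a tree and `L`
splits every nonzero `z`-free word which is `0` at `e`, then `e` has exactly one neighbour. -/
theorem one_neighbour (hL : IsCode L) (hz : NoZ L) (e : V) (hc : CritAt L e) (ι : W → V)
    (hι : Function.Injective ι) (hr : ∀ v, v ∈ Set.range ι ↔ v ≠ e)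
    (hT : (graph (Minor L ι (fun _ => z))).IsTree) :
    ∃ a, a ≠ e ∧ ∀ w, (graph L).Adj e w ↔ w = a := by
  obtain ⟨H, hH⟩ := exists_matrix hL hz
  have hH' : IsMat L H := hH
  have hyp : Pool.Agent.H35.LB.Hyp (graph (Minor L ι (fun _ => z))) (fun x => H e (ι x)) := by
    rintro s ⟨hs0, hs1, hs2⟩
    have hex : ∀ x, Function.extend ι s 0 (ι x) = s x := fun x =>
      Function.Injective.extend_apply hι _ _ x
    have hee : Function.extend ι s 0 e = 0 := by
      rw [Function.extend_apply']
      · rfl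
      · rintro ⟨x, hx⟩
        exact (hr e).1 ⟨x, hx⟩ rfl
    set u : V → K := fun v => (Function.extend ι s 0 v, ∑ w, H v w * Function.extend ι s 0 w)
      with hu_def
    have hu : u ∈ L := by
      rw [hH.2]
      intro v
      rfl
    have hu1 : ∀ x, (u (ι x)).1 = s x := hex
    have hue1 : (u e).1 = 0 := hee
    have hue2 : (u e).2 = 0 := by
      rw [snd_eq hH' e ι hι hr hu hue1, ← hs2]
      exact Finset.sum_congr rfl fun y _ => by rw [hu1]
    have hue : u e = 0 := Prod.ext hue1 hue2
    have huz : ZFree u := by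
      intro v
      rw [k_ne_z_iff]
      intro hv
      by_cases hve : v = e
      · rw [hve]; exact hue2
      · obtain ⟨x, hx⟩ := (hr v).2 hve
        subst hx
        rw [hu1] at hv
        rw [snd_eq hH' e ι hι hr hu hue1, ← hs1 x hv, nb_eq hH' e ι hι hr s x hv]
        exact Finset.sum_congr rfl fun y _ => by rw [hu1]
    have hu0 : u ≠ 0 := by
      intro h
      apply hs0
      funext x
      rw [← hu1, h]
      rfl
    obtain ⟨g, c, hcL, d, hdL, hcd, hcg, hdg, hdis⟩ := hc u hu hu0 huz hue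
    obtain ⟨g', hg'⟩ : ∃ g' : Option W, (g' = none ∧ g = e) ∨ ∃ x, g' = some x ∧ g = ι x := by
      by_cases h : g = e
      · exact ⟨none, Or.inl ⟨rfl, h⟩⟩
      · obtain ⟨x, hx⟩ := (hr g).2 h
        exact ⟨some x, Or.inr ⟨x, rfl, hx.symm⟩⟩
    refine ⟨g', fun x => (c (ι x)).1, fun x => (d (ι x)).1, ?_, ?_, ?_, ?_⟩
    · intro x
      rw [← hu1 x, ← hcd]
      rfl
    · intro x
      by_cases hx : ι x = g
      · simp only [hx, hcg, z]
        exact zero_mul _
      · rcases hdis _ hx with h | h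
        · simp [h]
        · simp [h]
    · exact pointed_of hH' e ι hι hr huz hue hcL hcd g hcg hdis g' hg'
    · exact pointed_of hH' e ι hι hr huz hue hdL (by rw [add_comm]; exact hcd) g hdg
        (fun v hv => (hdis v hv).symm) g' hg'
  obtain ⟨a, ha, hb⟩ := Pool.Agent.H35.LB.lemmaB _ _ hT hyp
  refine ⟨ι a, (hr _).1 ⟨a, rfl⟩, ?_⟩
  intro w
  rw [adj_iff hH']
  constructor
  · rintro ⟨hne, h1⟩
    obtain ⟨x, hx⟩ := (hr w).2 hne.symm
    subst hx
    by_contra hxa
    have : x ≠ a := fun h => hxa (by rw [h])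
    have h2 : H e (ι x) = 0 := hb x this
    rw [h2] at h1
    exact absurd h1 (by decide)
  · rintro rfl
    exact ⟨((hr _).1 ⟨a, rfl⟩).symm, ha⟩

/-- the graph of the deletion by `z` is the graph without the vertex -/
theorem adj_minor (hL : IsCode L) (hz : NoZ L) (e : V) (ι : W → V)
    (hι : Function.Injective ι) (hr : ∀ v, v ∈ Set.range ι ↔ v ≠ e) (x y : W) :
    (graph (Minor L ι (fun _ => z))).Adj x y ↔ (graph L).Adj (ι x) (ι y) := by
  obtain ⟨H, hH⟩ := exists_matrix hL hz
  have hH' : IsMat L H := hH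
  rw [adj_iff hH', adj_iff (isMat_minor hH' e ι hι hr)]
  exact and_congr_left fun _ => not_congr hι.eq_iff.symm

end del

/-- a tree plus a vertex with one neighbour is a tree -/
theorem isTree_add {V W : Type} (G : SimpleGraph V) (T : SimpleGraph W) (hT : T.IsTree) (e : V)
    (ι : W → V) (hι : Function.Injective ι) (hr : ∀ v, v ∈ Set.range ι ↔ v ≠ e)
    (hadj : ∀ x y, T.Adj x y ↔ G.Adj (ι x) (ι y)) (a : V) (hae : a ≠ e)
    (ha : ∀ w, G.Adj e w ↔ w = a) : G.IsTree := by
  obtain ⟨xa, hxa⟩ := (hr a).2 hae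
  have hreach : ∀ v, G.Reachable a v := by
    intro v
    by_cases hv : v = e
    · rw [hv]
      exact ((ha a).2 rfl).symm.reachable
    · obtain ⟨x, hx⟩ := (hr v).2 hv
      have h := hT.connected.preconnected xa x
      have h2 := h.map (⟨ι, fun {x y} h => (hadj x y).1 h⟩ : T →g G)
      rw [← hxa, ← hx]
      exact h2
  refine ⟨?_, ?_⟩
  · rw [SimpleGraph.connected_iff]
    exact ⟨fun v w => (hreach v).symm.trans (hreach w), ⟨e⟩⟩
  · apply Pool.Agent.H17.TR.acyclic_of_cut
    intro c d hcd
    by_cases hc : c = e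
    · subst hc
      refine ⟨{c}, rfl, fun h => hcd.ne h.symm, ?_⟩
      intro v w hvw hv _
      rw [Set.mem_singleton_iff] at hv
      subst hv
      exact ⟨rfl, by rw [(ha w).1 hvw, (ha d).1 hcd]⟩
    · by_cases hd : d = e
      · subst hd
        refine ⟨{d}ᶜ, hc, fun h => h rfl, ?_⟩
        intro v w hvw hv hw
        have hw' : w = d := by
          by_contra h
          exact hw h
        subst hw'
        exact ⟨by rw [(ha v).1 hvw.symm, (ha c).1 hcd.symm], rfl⟩
      · obtain ⟨x, hx⟩ := (hr c).2 hc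
        obtain ⟨y, hy⟩ := (hr d).2 hd
        subst hx
        subst hy
        obtain ⟨S, hS1, hS2, hS3⟩ := Pool.Agent.H17.TR.cut_of_acyclic T hT.isAcyclic x y
          ((hadj x y).2 hcd)
        refine ⟨{v | (∃ s ∈ S, ι s = v) ∨ (v = e ∧ ∃ s ∈ S, ι s = a)}, Or.inl ⟨x, hS1, rfl⟩, ?_, ?_⟩
        · rintro (⟨s, hs, hsy⟩ | ⟨h, _⟩)
          · rw [hι hsy] at hs
            exact hS2 hs
          · exact hd h
        · intro v w hvw hv hw
          by_cases hve : v = e
          · exfalso
            subst hve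
            have hwa := (ha w).1 hvw
            subst hwa
            rcases hv with ⟨s, _, hs⟩ | ⟨_, s, hs, hsa⟩
            · exact (hr v).1 ⟨s, hs⟩ rfl
            · exact hw (Or.inl ⟨s, hs, hsa⟩)
          · by_cases hwe : w = e
            · exfalso
              subst hwe
              have hva := (ha v).1 hvw.symm
              subst hva
              rcases hv with ⟨s, hs, hsv⟩ | ⟨h, _⟩
              · exact hw (Or.inr ⟨rfl, s, hs, hsv⟩)
              · exact hve h
            · obtain ⟨s, hs⟩ := (hr v).2 hve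
              obtain ⟨t, ht⟩ := (hr w).2 hwe
              subst hs
              subst ht
              have hsS : s ∈ S := by
                rcases hv with ⟨s', hs', h⟩ | ⟨h, _⟩
                · rw [hι h] at hs'
                  exact hs'
                · exact absurd h hve
              have htS : t ∉ S := fun h => hw (Or.inl ⟨t, h, rfl⟩)
              obtain ⟨h1, h2⟩ := hS3 s t ((hadj s t).2 hvw) hsS htS
              rw [h1, h2]
              exact ⟨rfl, rfl⟩

/-- **Lemma B**, tree form -/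
theorem isTree_of_delete {V W : Type} [Fintype V] [Fintype W] {L : Submodule (ZMod 2) (V → K)}
    (hL : IsCode L) (hz : NoZ L) (e : V) (hc : CritAt L e) (ι : W → V)
    (hι : Function.Injective ι) (hr : ∀ v, v ∈ Set.range ι ↔ v ≠ e)
    (hT : (graph (Minor L ι (fun _ => z))).IsTree) : (graph L).IsTree := by
  obtain ⟨a, hae, ha⟩ := one_neighbour hL hz e hc ι hι hr hT
  exact isTree_add _ _ hT e ι hι hr (fun x y => adj_minor hL hz e ι hι hr x y) a hae ha

end Pool.Agent.H32.AA
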