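import Mathlib
import Pool.Agent.H32.AA.One
import Pool.Agent.H26.TR.Pair

set_option autoImplicit false

/-!
The codes `N_h` (MP_a46c6f_co, notes 6830 (1), 6873, 6894 (3)): a full state `D` at `e` with parts `P`,
a part `M`, in every other part the letter is changed at exactly one place.  The code on `M` and `e` has
no `{0,z}`-word, splits every `z`-free word which is `0` at `e`, and its deletion at `e` is the pair
code of `M`.
-/

namespace Pool.Agent.H32.AA

open Pool.Agent.H98.Code Pool.Agent.H26.TR Finset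
open scoped Classical

variable {V : Type} [Fintype V] [DecidableEq V]

/-- the changed state -/
noncomputable def sg (D : V → K) (q : V → Prop) : V → K := fun v => if q v then D v + z else D v

theorem sg_fst {D : V → K} {q : V → Prop} {v : V} (hv : (D v).1 = 1) : (sg D q v).1 = 1 := by
  unfold sg
  split_ifs
  · rw [k_fst_add_z, hv]
  · exact hv

theorem k_ne_zero {a : K} (h : a.1 = 1) : a ≠ 0 := by
  rintro rfl
  exact absurd h (by decide)

theorem k_ne_z {a : K} (h : a.1 = 1) : a ≠ z := by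
  rintro rfl
  exact absurd h (by decide)

/-- the code `N_h` -/
noncomputable def NH (L : Submodule (ZMod 2) (V → K)) (D : V → K) (e : V) (M : Finset V)
    (q : V → Prop) : Submodule (ZMod 2) ({v // v ∈ M ∨ v = e} → K) :=
  Minor L (fun x => x.1) (sg D q)

variable {L : Submodule (ZMod 2) (V → K)} {e : V} {D : V → K} {P : Finset (Finset V)}
  {M : Finset V} {q : V → Prop}

theorem mem_NH (h : Hyp L e D) (a : {v // v ∈ M ∨ v = e} → K) :
    a ∈ NH L D e M q ↔ ∃ u ∈ L, (∀ v, v ∉ M → v ≠ e → u v = 0 ∨ u v = sg D q v) ∧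
      a = fun x => u x.1 := by
  have hr : ∀ v : V, v ∉ Set.range (fun x : {v // v ∈ M ∨ v = e} => x.1) ↔ v ∉ M ∧ v ≠ e := by
    intro v
    simp
  constructor
  · rintro ⟨u, hu, hk, rfl⟩
    refine ⟨u, hu, ?_, rfl⟩
    intro v hv hve
    have := hk v ((hr v).2 ⟨hv, hve⟩)
    rwa [kf_eq_zero_iff _ _ (k_ne_zero (sg_fst (h.letter v hve)))] at this
  · rintro ⟨u, hu, h1, rfl⟩
    refine ⟨u, hu, ?_, rfl⟩
    intro v hv
    obtain ⟨h2, h3⟩ := (hr v).1 hv
    rw [kf_eq_zero_iff _ _ (k_ne_zero (sg_fst (h.letter v h3)))]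
    exact h1 v h2 h3

theorem form_pw (c : V → K) {N : Finset V} (heN : e ∉ N) :
    form c (pw D e N) = (c e).1 + ∑ v ∈ N, kf (c v) (D v) := by
  have h1 : form c (pw D e N) = ∑ v, kf (c v) (pw D e N v) := rfl
  rw [h1, ← Finset.add_sum_erase _ _ (Finset.mem_univ e)]
  congr 1
  · have : pw D e N e = z := by simp [pw]
    rw [this, kf_z_right]
  · symm
    apply Finset.sum_subset_zero_on_sdiff
    · intro v hv
      exact Finset.mem_erase.2 ⟨fun h0 => heN (h0 ▸ hv), Finset.mem_univ v⟩
    · intro v hv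
      obtain ⟨h2, h3⟩ := Finset.mem_sdiff.1 hv
      have h4 := (Finset.mem_erase.1 h2).1
      have : pw D e N v = 0 := by simp [pw, h3, h4]
      rw [this, kf_zero_right]
    · intro v hv
      have h4 : v ≠ e := fun h0 => heN (h0 ▸ hv)
      have : pw D e N v = D v := by simp [pw, hv, h4]
      rw [this]

/-- a word below the changed state on `N` which is `0` or `z` at `e` is `0` at the changed place -/
theorem zero_at (hP : IsParts L e D P) (h : Hyp L e D) {N : Finset V} (hN : N ∈ P)
    (hq : ∃! v, v ∈ N ∧ q v) {u : V → K} (hu : u ∈ L) (hue : (u e).1 = 0)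
    (hun : ∀ v ∈ N, u v = 0 ∨ u v = sg D q v) : ∀ v ∈ N, q v → u v = 0 := by
  intro v hv hqv
  have heN : e ∉ N := (hP.mem N hN).2.1
  have hform := h.iso u hu _ (hP.mem N hN).2.2
  rw [form_pw u heN, hue, zero_add, Finset.sum_eq_single v] at hform
  · rcases hun v hv with h1 | h1
    · exact h1
    · exfalso
      have hD := h.letter v (fun h0 => heN (h0 ▸ hv))
      rw [h1] at hform
      unfold sg at hform
      rw [if_pos hqv, kf_add_left, kf_self, zero_add, kf_z_left, hD] at hform
      exact absurd hform (by decide)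
  · intro w hw hwv
    have hnq : ¬ q w := fun h0 => hwv (hq.unique ⟨hw, h0⟩ ⟨hv, hqv⟩)
    rcases hun w hw with h1 | h1
    · rw [h1, kf_zero_left]
    · rw [h1]
      unfold sg
      rw [if_neg hnq, kf_self]
  · intro h0
    exact absurd hv h0

/-- such a word is below the state -/
theorem below_at (hP : IsParts L e D P) (h : Hyp L e D) (hM : M ∈ P)
    (hq : ∀ N ∈ P, N ≠ M → ∃! v, v ∈ N ∧ q v) {u : V → K} (hu : u ∈ L) (hue : (u e).1 = 0)
    (hun : ∀ v, v ∉ M → v ≠ e → u v = 0 ∨ u v = sg D q v) :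
    ∀ v, v ∉ M → v ≠ e → (u v = 0 ∨ u v = D v) ∧ (q v → u v = 0) := by
  intro v hv hve
  obtain ⟨N, hN, hvN⟩ := hP.cover v hve
  have hNM : N ≠ M := fun h0 => hv (h0 ▸ hvN)
  have hkey : q v → u v = 0 := by
    intro hqv
    refine zero_at hP h hN (hq N hN hNM) hu hue ?_ v hvN hqv
    intro w hw
    refine hun w ?_ (fun h0 => (hP.mem N hN).2.1 (h0 ▸ hw))
    intro hwM
    exact Finset.disjoint_left.1 (hP.disj N hN M hM hNM) hw hwM
  refine ⟨?_, hkey⟩
  rcases hun v hv hve with h1 | h1
  · exact Or.inl h1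
  · by_cases hqv : q v
    · exact Or.inl (hkey hqv)
    · right
      rw [h1]
      unfold sg
      rw [if_neg hqv]

theorem NH_isCode (hL : IsCode L) (h : Hyp L e D) : IsCode (NH L D e M q) := by
  refine minor_isCode hL Subtype.val_injective ?_
  intro v hv
  have hve : v ≠ e := by
    rintro rfl
    exact hv ⟨⟨v, Or.inr rfl⟩, rfl⟩
  exact k_ne_zero (sg_fst (h.letter v hve))

theorem NH_noZ (hP : IsParts L e D P) (h : Hyp L e D) (hz : NoZ L) (hM : M ∈ P)
    (hq : ∀ N ∈ P, N ≠ M → ∃! v, v ∈ N ∧ q v) : NoZ (NH L D e M q) := by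
  intro a ha hza
  rw [mem_NH h] at ha
  obtain ⟨u, hu, h1, rfl⟩ := ha
  have hue : (u e).1 = 0 := hza ⟨e, Or.inr rfl⟩
  have huM : ∀ v, v ∈ M → (u v).1 = 0 := fun v hv => hza ⟨v, Or.inl hv⟩
  have hb := below_at hP h hM hq hu hue h1
  have hue' : u e = 0 ∨ u e = z := K_cases _ hue
  have h0 := hP.pair_noZ h hz hM hu (fun v hv hve => (hb v hv hve).1) hue' huM
  have hk : KD L D e u := by
    refine ⟨hu, ?_, hue'⟩
    intro v hve
    by_cases hv : v ∈ M
    · exact Or.inl (h0 v hv)
    · exact (hb v hv hve).1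
  have hall : ∀ v, v ≠ e → u v = 0 := by
    intro v hve
    by_cases hv : v ∈ M
    · exact h0 v hv
    · obtain ⟨N, hN, hvN⟩ := hP.cover v hve
      have hNM : N ≠ M := fun h0 => hv (h0 ▸ hvN)
      obtain ⟨w, ⟨hwN, hqw⟩, _⟩ := hq N hN hNM
      have hwM : w ∉ M := fun h2 => Finset.disjoint_left.1 (hP.disj N hN M hM hNM) hwN h2
      have hwe : w ≠ e := fun h0 => (hP.mem N hN).2.1 (h0 ▸ hwN)
      have hw0 := (hb w hwM hwe).2 hqw
      rcases hP.union u hk N hN with h3 | h3
      · exact absurd hw0 (mem_sup.1 (h3 hwN)).2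
      · by_contra hne
        exact Finset.disjoint_left.1 h3 hvN (mem_sup.2 ⟨hve, hne⟩)
  have hue0 : u e = 0 := by
    rcases hue' with h3 | h3
    · exact h3
    · exact absurd h3 (h.noz u hu hall)
  funext x
  by_cases hx : x.1 = e
  · change u x.1 = 0
    rw [hx]
    exact hue0
  · exact hall x.1 hx

theorem NH_critAt (hP : IsParts L e D P) (h : Hyp L e D) (hM : M ∈ P)
    (hq : ∀ N ∈ P, N ≠ M → ∃! v, v ∈ N ∧ q v) :
    CritAt (NH L D e M q) ⟨e, Or.inr rfl⟩ := by
  intro a ha ha0 hza hae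
  rw [mem_NH h] at ha
  obtain ⟨u, hu, h1, rfl⟩ := ha
  have hue : u e = 0 := hae
  have huz : ZFree u := by
    intro v
    by_cases hve : v = e
    · rw [hve, hue]; decide
    · by_cases hv : v ∈ M
      · exact hza ⟨v, Or.inl hv⟩
      · rcases h1 v hv hve with h2 | h2
        · rw [h2]; decide
        · rw [h2]
          exact k_ne_z (sg_fst (h.letter v hve))
  have hu0 : u ≠ 0 := by
    rintro rfl
    exact ha0 rfl
  obtain ⟨g, c, hc, d, hd, hcd, hcg, hdg, hdis⟩ := h.split u hu hu0 huz hue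
  have hval : ∀ v, v ≠ g → (c v = 0 ∨ c v = u v) ∧ (d v = 0 ∨ d v = u v) := by
    intro v hv
    have hs : u v = c v + d v := by rw [← hcd]; rfl
    rcases hdis v hv with h2 | h2
    · rw [h2, zero_add] at hs
      exact ⟨Or.inl h2, Or.inr hs.symm⟩
    · rw [h2, add_zero] at hs
      exact ⟨Or.inr hs.symm, Or.inl h2⟩
  -- the splitting place is in `M` or `e`
  have key : ∀ (N : Finset V), N ∈ P → N ≠ M → g ∈ N → ∀ (b : V → K), b ∈ L → b g = z →
      (∀ v, v ≠ g → b v = 0 ∨ b v = u v) → ∀ w, w ∈ N → q w → w ≠ g ∧ b w ≠ 0 := by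
    intro N hN hNM hgN b hb hbg hbv w hwN hqw
    have heN : e ∉ N := (hP.mem N hN).2.1
    have hge : g ≠ e := fun h0 => heN (h0 ▸ hgN)
    have hbe : b e = 0 := by
      rcases hbv e hge.symm with h2 | h2
      · exact h2
      · rw [h2, hue]
    have hDg := h.letter g hge
    have hform := h.iso b hb _ (hP.mem N hN).2.2
    have hz0 : ∀ v ∈ N, v ≠ g → v ≠ w → kf (b v) (D v) = 0 := by
      intro v hv hvg hvw
      have hnq : ¬ q v := fun h0 => hvw ((hq N hN hNM).unique ⟨hv, h0⟩ ⟨hwN, hqw⟩)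
      have hvM : v ∉ M := fun h2 => Finset.disjoint_left.1 (hP.disj N hN M hM hNM) hv h2
      have hve : v ≠ e := fun h0 => heN (h0 ▸ hv)
      have h3 : b v = 0 ∨ b v = D v := by
        rcases hbv v hvg with h2 | h2
        · exact Or.inl h2
        · rcases h1 v hvM hve with h4 | h4
          · left; rw [h2, h4]
          · right
            rw [h2, h4]
            unfold sg
            rw [if_neg hnq]
      rcases h3 with h3 | h3
      · rw [h3, kf_zero_left]
      · rw [h3, kf_self]
    rw [form_pw b heN, hbe] at hform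
    have hform' : ∑ v ∈ N, kf (b v) (D v) = 0 := by
      simpa using hform
    have hgt : kf (b g) (D g) = 1 := by rw [hbg, kf_z_left, hDg]
    by_cases hwg : w = g
    · exfalso
      rw [Finset.sum_eq_single g, hgt] at hform'
      · exact absurd hform' (by decide)
      · intro v hv hvg
        exact hz0 v hv hvg (fun h0 => hvg (h0.trans hwg))
      · intro h0; exact absurd hgN h0
    · refine ⟨hwg, ?_⟩
      intro hbw
      rw [Finset.sum_eq_single g, hgt] at hform'
      · exact absurd hform' (by decide)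
      · intro v hv hvg
        by_cases hvw : v = w
        · rw [hvw, hbw, kf_zero_left]
        · exact hz0 v hv hvg hvw
      · intro h0; exact absurd hgN h0
  have hg : g ∈ M ∨ g = e := by
    by_contra hcon
    push Not at hcon
    obtain ⟨hgM, hge⟩ := hcon
    obtain ⟨N, hN, hgN⟩ := hP.cover g hge
    have hNM : N ≠ M := fun h0 => hgM (h0 ▸ hgN)
    obtain ⟨w, ⟨hwN, hqw⟩, _⟩ := hq N hN hNM
    obtain ⟨h2, h3⟩ := key N hN hNM hgN c hc hcg (fun v hv => (hval v hv).1) w hwN hqw
    obtain ⟨_, h4⟩ := key N hN hNM hgN d hd hdg (fun v hv => (hval v hv).2) w hwN hqw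
    rcases hdis w h2 with h5 | h5
    · exact h3 h5
    · exact h4 h5
  have hmem : ∀ (b : V → K), b ∈ L → (∀ v, v ≠ g → b v = 0 ∨ b v = u v) →
      (fun x : {v // v ∈ M ∨ v = e} => b x.1) ∈ NH L D e M q := by
    intro b hb hbv
    rw [mem_NH h]
    refine ⟨b, hb, ?_, rfl⟩
    intro v hv hve
    have hvg : v ≠ g := by
      rintro rfl
      rcases hg with h2 | h2
      · exact hv h2
      · exact hve h2
    rcases hbv v hvg with h2 | h2
    · exact Or.inl h2
    · rw [h2]
      exact h1 v hv hve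
  refine ⟨⟨g, hg⟩, fun x => c x.1, hmem c hc (fun v hv => (hval v hv).1), fun x => d x.1,
    hmem d hd (fun v hv => (hval v hv).2), ?_, hcg, hdg, ?_⟩
  · funext x
    change c x.1 + d x.1 = u x.1
    rw [← hcd]
    rfl
  · intro x hx
    apply hdis
    intro h0
    exact hx (Subtype.ext h0)

/-- the inclusion of `M` into `M` and `e` -/
def inM (M : Finset V) (e : V) : {v // v ∈ M} → {v // v ∈ M ∨ v = e} := fun x => ⟨x.1, Or.inl x.2⟩

theorem inM_inj : Function.Injective (inM M e) := by
  intro x y hxy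
  exact Subtype.ext (congrArg (fun t : {v // v ∈ M ∨ v = e} => t.1) hxy)

theorem inM_range (heM : e ∉ M) (x : {v // v ∈ M ∨ v = e}) :
    x ∈ Set.range (inM M e) ↔ x ≠ ⟨e, Or.inr rfl⟩ := by
  constructor
  · rintro ⟨y, rfl⟩ h0
    have : y.1 = e := congrArg (fun t : {v // v ∈ M ∨ v = e} => t.1) h0
    exact heM (this ▸ y.2)
  · intro h0
    rcases x.2 with h1 | h1
    · exact ⟨⟨x.1, h1⟩, rfl⟩
    · exact absurd (Subtype.ext h1) h0

/-- deleting `e` from `N_h` gives the pair code of `M` -/
theorem NH_delete (hP : IsParts L e D P) (h : Hyp L e D) (hM : M ∈ P)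
    (hq : ∀ N ∈ P, N ≠ M → ∃! v, v ∈ N ∧ q v) :
    Minor (NH L D e M q) (inM M e) (fun _ => z) = pairCode L D e M := by
  have heM : e ∉ M := (hP.mem M hM).2.1
  ext a
  rw [h.mem_pairCode heM]
  constructor
  · rintro ⟨b, hb, hb0, rfl⟩
    rw [mem_NH h] at hb
    obtain ⟨u, hu, h1, rfl⟩ := hb
    have hue : (u e).1 = 0 := by
      have := hb0 ⟨e, Or.inr rfl⟩ (fun h2 => (inM_range heM _).1 h2 rfl)
      rwa [kf_z_right] at this
    have hb := below_at hP h hM hq hu hue h1
    exact ⟨u, hu, fun v hv hve => (hb v hv hve).1, K_cases _ hue, rfl⟩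
  · rintro ⟨u, hu, h1, h2, rfl⟩
    have hue : (u e).1 = 0 := by
      rcases h2 with h3 | h3
      · rw [h3]; rfl
      · rw [h3]; rfl
    have key : ∀ S : Finset (Finset V), S ⊆ P.erase M → ∃ u' ∈ L, (∀ v, v ∈ M → u' v = u v) ∧
        (u' e).1 = 0 ∧ (∀ v, v ∉ M → v ≠ e → u' v = 0 ∨ u' v = D v) ∧
        ∀ N ∈ S, ∀ v ∈ N, q v → u' v = 0 := by
      intro S
      induction S using Finset.induction_on with
      | empty =>
        intro _
        exact ⟨u, hu, fun _ _ => rfl, hue, h1, fun N hN => absurd hN (Finset.notMem_empty N)⟩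
      | @insert N S hNS ih =>
        intro hsub
        obtain ⟨u', hu', h3, h4, h5, h6⟩ := ih (fun x hx => hsub (Finset.mem_insert_of_mem hx))
        have hN' := hsub (Finset.mem_insert_self N S)
        have hN : N ∈ P := (Finset.mem_erase.1 hN').2
        have hNM : N ≠ M := (Finset.mem_erase.1 hN').1
        obtain ⟨w, ⟨hwN, hqw⟩, huniq⟩ := hq N hN hNM
        have heN : e ∉ N := (hP.mem N hN).2.1
        have hwe : w ≠ e := fun h0 => heN (h0 ▸ hwN)
        have hwM : w ∉ M := fun h7 => Finset.disjoint_left.1 (hP.disj N hN M hM hNM) hwN h7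
        by_cases hw : u' w = 0
        · refine ⟨u', hu', h3, h4, h5, ?_⟩
          intro N' hN' v hv hqv
          rcases Finset.mem_insert.1 hN' with h7 | h7
          · subst h7
            rw [huniq v ⟨hv, hqv⟩]
            exact hw
          · exact h6 N' h7 v hv hqv
        · have hwD : u' w = D w := by
            rcases h5 w hwM hwe with h7 | h7
            · exact absurd h7 hw
            · exact h7
          have hpw : ∀ v, v ≠ e → v ∈ N → pw D e N v = D v := by
            intro v h7 h8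
            simp [pw, h7, h8]
          have hpw0 : ∀ v, v ≠ e → v ∉ N → pw D e N v = 0 := by
            intro v h7 h8
            simp [pw, h7, h8]
          have hpwe : pw D e N e = z := by simp [pw]
          refine ⟨u' + pw D e N, L.add_mem hu' (hP.mem N hN).2.2, ?_, ?_, ?_, ?_⟩
          · intro v hv
            have h7 : v ∉ N := fun h8 => Finset.disjoint_left.1 (hP.disj N hN M hM hNM) h8 hv
            rw [Pi.add_apply, hpw0 v (fun h0 => heM (h0 ▸ hv)) h7, add_zero, h3 v hv]
          · rw [Pi.add_apply, hpwe, k_fst_add_z, h4]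
          · intro v hv hve
            rw [Pi.add_apply]
            by_cases hvN : v ∈ N
            · rw [hpw v hve hvN]
              rcases h5 v hv hve with h7 | h7
              · right; rw [h7, zero_add]
              · left; rw [h7, k_add_self]
            · rw [hpw0 v hve hvN, add_zero]
              exact h5 v hv hve
          · intro N' hN'' v hv hqv
            rcases Finset.mem_insert.1 hN'' with h7 | h7
            · subst h7
              rw [huniq v ⟨hv, hqv⟩, Pi.add_apply, hpw w hwe hwN, hwD, k_add_self]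
            · have hN'P : N' ∈ P :=
                (Finset.mem_erase.1 (hsub (Finset.mem_insert_of_mem h7))).2
              have hne : N' ≠ N := by
                rintro rfl
                exact hNS h7
              have hvN : v ∉ N := fun h8 =>
                Finset.disjoint_left.1 (hP.disj N' hN'P N hN hne) hv h8
              have hve : v ≠ e := fun h0 => (hP.mem N' hN'P).2.1 (h0 ▸ hv)
              rw [Pi.add_apply, hpw0 v hve hvN, add_zero]
              exact h6 N' h7 v hv hqv
    obtain ⟨u', hu', h3, h4, h5, h6⟩ := key (P.erase M) (Finset.Subset.refl _)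
    refine ⟨fun x => u' x.1, ?_, ?_, ?_⟩
    · rw [mem_NH h]
      refine ⟨u', hu', ?_, rfl⟩
      intro v hv hve
      obtain ⟨N, hN, hvN⟩ := hP.cover v hve
      have hNM : N ≠ M := fun h0 => hv (h0 ▸ hvN)
      by_cases hqv : q v
      · exact Or.inl (h6 N (Finset.mem_erase.2 ⟨hNM, hN⟩) v hvN hqv)
      · rcases h5 v hv hve with h7 | h7
        · exact Or.inl h7
        · right
          rw [h7]
          unfold sg
          rw [if_neg hqv]
    · intro x hx
      have hxe : x = ⟨e, Or.inr rfl⟩ := by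
        by_contra h0
        exact hx ((inM_range heM x).2 h0)
      rw [kf_z_right, hxe]
      exact h4
    · funext x
      exact (h3 x.1 x.2).symm

/-- **`e` has exactly one neighbour in every `N_h`** (if the pair code of `M` is the code of a tree) -/
theorem one (hL : IsCode L) (hz : NoZ L) (h : Hyp L e D) (hP : IsParts L e D P) (hM : M ∈ P)
    (hT : (graph (pairCode L D e M)).IsTree)
    (hq : ∀ N ∈ P, N ≠ M → ∃! v, v ∈ N ∧ q v) :
    ∃ a ∈ M, ∃ u ∈ L, (u e).1 = 1 ∧ u a = z ∧ (∀ v ∈ M, v ≠ a → u v = 0) ∧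
      ∀ v, v ∉ M → v ≠ e → kf (u v) (if q v then D v + z else D v) = 0 := by
  have heM : e ∉ M := (hP.mem M hM).2.1
  have hc : IsCode (NH L D e M q) := NH_isCode hL h
  have hn : NoZ (NH L D e M q) := NH_noZ hP h hz hM hq
  have hT' : (graph (Minor (NH L D e M q) (inM M e) (fun _ => z))).IsTree := by
    rw [NH_delete hP h hM hq]
    exact hT
  obtain ⟨a, hae, ha⟩ := one_neighbour hc hn ⟨e, Or.inr rfl⟩ (NH_critAt hP h hM hq) (inM M e)
    inM_inj (inM_range heM) hT'
  obtain ⟨H, hH⟩ := exists_matrix hc hn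
  have hH' : IsMat (NH L D e M q) H := hH
  obtain ⟨r, hr, hr1, hr0⟩ := exists_row hc hn ⟨e, Or.inr rfl⟩
  have hrow : ∀ w, (r w).2 = H w ⟨e, Or.inr rfl⟩ := by
    intro w
    rw [(hH.2 r).1 hr w, Finset.sum_eq_single ⟨e, Or.inr rfl⟩]
    · rw [hr1, mul_one]
    · intro i _ hi
      rw [hr0 i hi, mul_zero]
    · intro h0; exact absurd (Finset.mem_univ _) h0
  have hra : r a = z := by
    refine Prod.ext (hr0 a hae) ?_
    rw [hrow, hH.1]
    exact ((adj_iff hH' _ _).1 ((ha a).2 rfl)).2
  have hr' : ∀ w, w ≠ ⟨e, Or.inr rfl⟩ → w ≠ a → r w = 0 := by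
    intro w hw hwa
    refine Prod.ext (hr0 w hw) ?_
    rw [hrow, hH.1]
    have h1 : ¬ (graph (NH L D e M q)).Adj ⟨e, Or.inr rfl⟩ w := fun h2 => hwa ((ha w).1 h2)
    rw [adj_iff hH'] at h1
    push Not at h1
    have h2 := h1 hw.symm
    rcases Pool.Agent.H35.LB.z2 (H ⟨e, Or.inr rfl⟩ w) with h3 | h3
    · exact h3
    · exact absurd h3 h2
  rw [mem_NH h] at hr
  obtain ⟨u, hu, h1, rfl⟩ := hr
  have haM : a.1 ∈ M := by
    rcases a.2 with h2 | h2
    · exact h2
    · exact absurd (Subtype.ext h2) hae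
  refine ⟨a.1, haM, u, hu, hr1, hra, ?_, ?_⟩
  · intro v hv hva
    refine hr' ⟨v, Or.inl hv⟩ ?_ ?_
    · intro h0
      have : v = e := congrArg (fun t : {v // v ∈ M ∨ v = e} => t.1) h0
      exact heM (this ▸ hv)
    · intro h0
      exact hva (congrArg (fun t : {v // v ∈ M ∨ v = e} => t.1) h0)
  · intro v hv hve
    have hl := k_ne_zero (sg_fst (q := q) (h.letter v hve))
    have h3 := h1 v hv hve
    rw [← kf_eq_zero_iff _ _ hl] at h3
    exact h3

end Pool.Agent.H32.AA
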